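import Pool.Agent.Helper72.LSr.NumDef

/-!
# Numerical lemmas of section 7, piece LR-F4: `h2`, `h3`, `mm_le`.
-/

namespace Pool.Agent.Helper42.LSr

open Finset
open scoped Classical
open Pool.Agent.Helper72.LSr

variable {k M X D Y ρ mm : ℤ}

theorem mm_le (h : NumH k M X D Y ρ mm) : mm ≤ k := by
  obtain ⟨hk, hD, hX, hY, hε, hcase, hm, hZ, hJ⟩ := h
  rcases hcase with ⟨h1, h2⟩ | ⟨h1, h2⟩
  · rw [max_eq_right (by omega)] at hY hZ; omega
  · rw [max_eq_left (by omega)] at hY hZ; omega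

/-- the quadratic form estimate used in the case `1 ≤ ρ` -/
theorem aux_V (k Y e J Z : ℤ) (hk : 3 ≤ k) (hY : 1 ≤ Y) (hJ : 0 ≤ J) (he : Y + 3 + J ≤ e)
    (hZ : Z ≤ e - Y - 2 - J) :
    k * Y * (Y + e) + (2 * k + 3) * Y * Z + k * (Y + e) * J ≤ k * (Y + e) * (2 * e + 1) ∧
    k * Y * (Y + e) + (2 * k + 3) * Y * Z ≤ 2 * k * (Y + e) * e := by
  have hz : (2 * k + 3) * Y * Z ≤ (2 * k + 3) * Y * (e - Y - 2 - J) :=
    mul_le_mul_of_nonneg_left hZ (by positivity)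
  obtain ⟨f, rfl⟩ : ∃ f, e = Y + 3 + J + f := ⟨e - (Y + 3 + J), by ring⟩
  have hf : 0 ≤ f := by omega
  obtain ⟨l, rfl⟩ : ∃ l, k = 3 + l := ⟨k - 3, by ring⟩
  have hl : 0 ≤ l := by omega
  obtain ⟨y, rfl⟩ : ∃ y, Y = 1 + y := ⟨Y - 1, by ring⟩
  have hy : 0 ≤ y := by omega
  constructor
  · refine le_trans (by
      have := hz
      linarith : _ ≤ (3 + l) * (1 + y) * (1 + y + (1 + y + 3 + J + f)) +
        (2 * (3 + l) + 3) * (1 + y) * (1 + y + 3 + J + f - (1 + y) - 2 - J) +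
        (3 + l) * (1 + y + (1 + y + 3 + J + f)) * J) ?_
    rw [← sub_nonneg]
    ring_nf
    positivity
  · refine le_trans (by
      have := hz
      linarith : _ ≤ (3 + l) * (1 + y) * (1 + y + (1 + y + 3 + J + f)) +
        (2 * (3 + l) + 3) * (1 + y) * (1 + y + 3 + J + f - (1 + y) - 2 - J)) ?_
    rw [← sub_nonneg]
    ring_nf
    positivity

/-- the quadratic form estimate used in the case `ρ ≤ 0`, `r = -ρ` -/
theorem aux_U (k Y e J Z r : ℤ) (hk : 3 ≤ k) (hr : 0 ≤ r) (hY : 1 + r ≤ Y) (hJ : 1 ≤ J)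
    (he : Y + 1 + J - r ≤ e) (hZ : Z ≤ e + 2 * r - J - Y) :
    k * Y * (Y + e) + (2 * k + 3) * Y * Z - (3 * k + 3) * r * (Y + e) + k * (Y + e) * J
      ≤ k * (Y + e) * (2 * e + 1) ∧
    k * Y * (Y + e) + (2 * k + 3) * Y * Z - (3 * k + 3) * r * (Y + e) ≤ 2 * k * (Y + e) * e := by
  have hz : (2 * k + 3) * Y * Z ≤ (2 * k + 3) * Y * (e + 2 * r - J - Y) :=
    mul_le_mul_of_nonneg_left hZ (by have : 0 ≤ Y := by omega
                                     positivity)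
  obtain ⟨f, rfl⟩ : ∃ f, e = Y + 1 + J - r + f := ⟨e - (Y + 1 + J - r), by ring⟩
  have hf : 0 ≤ f := by omega
  obtain ⟨l, rfl⟩ : ∃ l, k = 3 + l := ⟨k - 3, by ring⟩
  have hl : 0 ≤ l := by omega
  obtain ⟨y, rfl⟩ : ∃ y, Y = 1 + r + y := ⟨Y - 1 - r, by ring⟩
  have hy : 0 ≤ y := by omega
  obtain ⟨j, rfl⟩ : ∃ j, J = 1 + j := ⟨J - 1, by ring⟩
  have hj : 0 ≤ j := by omega
  constructor
  · refine le_trans (by
      have := hz
      linarith : _ ≤ (3 + l) * (1 + r + y) * (1 + r + y + (1 + r + y + 1 + (1 + j) - r + f)) +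
        (2 * (3 + l) + 3) * (1 + r + y) *
          (1 + r + y + 1 + (1 + j) - r + f + 2 * r - (1 + j) - (1 + r + y)) -
        (3 * (3 + l) + 3) * r * (1 + r + y + (1 + r + y + 1 + (1 + j) - r + f)) +
        (3 + l) * (1 + r + y + (1 + r + y + 1 + (1 + j) - r + f)) * (1 + j)) ?_
    rw [← sub_nonneg]
    ring_nf
    positivity
  · refine le_trans (by
      have := hz
      linarith : _ ≤ (3 + l) * (1 + r + y) * (1 + r + y + (1 + r + y + 1 + (1 + j) - r + f)) +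
        (2 * (3 + l) + 3) * (1 + r + y) *
          (1 + r + y + 1 + (1 + j) - r + f + 2 * r - (1 + j) - (1 + r + y)) -
        (3 * (3 + l) + 3) * r * (1 + r + y + (1 + r + y + 1 + (1 + j) - r + f))) ?_
    rw [← sub_nonneg]
    ring_nf
    positivity

theorem aux (h : NumH k M X D Y ρ mm) (hX : X = 1) :
    k * D * (k + 1 - D) +
      (k * Y * D + (2 * k + 3) * Y * (D - Y - ρ - mm) - (3 * k + 3) * max (-ρ) 0 * D)
      ≤ k * D * (2 * (D - Y) + 1) ∧
    k * Y * D + (2 * k + 3) * Y * (D - Y - ρ - mm) - (3 * k + 3) * max (-ρ) 0 * D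
      ≤ 2 * k * D * (D - Y) := by
  obtain ⟨hk, hD, -, hY, hε, hcase, hm, hZ, hJ⟩ := h
  subst hX
  simp only [sub_self, zero_mul, add_zero] at hJ
  rcases hcase with ⟨h1, h2⟩ | ⟨h1, h2⟩
  · rw [max_eq_right (by omega)] at hY hZ ⊢
    have := aux_V k Y (D - Y) (k + 1 - D) (D - Y - ρ - mm) (by omega) (by omega) (by omega)
      (by omega) (by omega)
    rw [show Y + (D - Y) = D by ring] at this
    constructor
    · nlinarith [this.1]
    · nlinarith [this.2]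
  · rw [max_eq_left (by omega)] at hY hZ ⊢
    have := aux_U k Y (D - Y) (k + 1 - D) (D - Y - ρ - mm) (-ρ) (by omega) (by omega) (by omega)
      (by omega) (by omega) (by omega)
    rw [show Y + (D - Y) = D by ring] at this
    constructor
    · nlinarith [this.1]
    · nlinarith [this.2]

theorem h2 (h : NumH k M X D Y ρ mm) (hX : X = 1) :
    k * Y * D + (2 * k + 3) * Y * (D - Y - ρ - mm) - (3 * k + 3) * max (-ρ) 0 * D
      ≤ 2 * k * D * (D - Y) := (aux h hX).2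

theorem h3 (h : NumH k M X D Y ρ mm) (hX : X = 1) :
    k * D * (k + 1 - D) +
      (k * Y * D + (2 * k + 3) * Y * (D - Y - ρ - mm) - (3 * k + 3) * max (-ρ) 0 * D)
      ≤ k * D * (2 * (D - Y) + 1) := (aux h hX).1

end Pool.Agent.Helper42.LSr
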